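import Pool.Agent.Helper164.EG.Young

set_option autoImplicit false

namespace Pool.Agent.Helper164.EG

open MeasureTheory Set Filter Topology
open scoped ENNReal NNReal

/-- the log density is integrable with integral minus the entropy -/
theorem ent (ν : Measure ℝ) [IsProbabilityMeasure ν] (hν : ν ≪ volume)
    (hI : Integrable (fun x : ℝ => Real.negMulLog (ν.rnDeriv volume x).toReal) volume) :
    Integrable (fun x => Real.log (ν.rnDeriv volume x).toReal) ν ∧
    ∫ x, Real.log (ν.rnDeriv volume x).toReal ∂ν =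
      -∫ x, Real.negMulLog (ν.rnDeriv volume x).toReal := by
  have e : (fun x : ℝ => Real.negMulLog (ν.rnDeriv volume x).toReal) =
      fun x => -((ν.rnDeriv volume x).toReal • Real.log (ν.rnDeriv volume x).toReal) := by
    funext x
    rw [Real.negMulLog, smul_eq_mul]
    ring
  constructor
  · rw [← integrable_rnDeriv_smul_iff hν]
    rw [e] at hI
    simpa using hI.neg
  · rw [e, integral_neg, neg_neg, integral_rnDeriv_smul hν]

theorem pos_fin (ν : Measure ℝ) [IsProbabilityMeasure ν] (hν : ν ≪ volume) :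
    ∀ᵐ x ∂ν, 0 < ν.rnDeriv volume x ∧ ν.rnDeriv volume x < ∞ := by
  filter_upwards [Measure.rnDeriv_pos hν, hν.ae_le (Measure.rnDeriv_lt_top ν volume)] with x h1 h2
  exact ⟨h1, h2⟩

theorem alg (a b c u v w t : ℝ) (ha : 0 < a) (hb : 0 < b) (hc : 0 < c) (hu : 0 < u) (hv : 0 < v)
    (hw : 0 < w) (ht : 0 < t) :
    a * b * c * Real.exp (-(Real.log a + Real.log b + Real.log c
      - 2/3 * (Real.log a + Real.log b + Real.log c + Real.log u + Real.log v + Real.log w)
      + Real.log t)) = (a * u * (b * v) * (c * w)) ^ (2/3 : ℝ) * t⁻¹ := by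
  have h1 : (a * u * (b * v) * (c * w)) ^ (2/3 : ℝ) =
      Real.exp (2/3 * (Real.log a + Real.log b + Real.log c + Real.log u + Real.log v + Real.log w))
      := by
    rw [Real.rpow_def_of_pos (by positivity), Real.log_mul (by positivity) (by positivity),
      Real.log_mul (by positivity) (by positivity), Real.log_mul (by positivity) (by positivity),
      Real.log_mul (by positivity) (by positivity), Real.log_mul (by positivity) (by positivity)]
    congr 1
    ring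
  have h2 : t⁻¹ = Real.exp (-Real.log t) := by
    rw [Real.exp_neg, Real.exp_log ht]
  have h3 : a * b * c = Real.exp (Real.log a + Real.log b + Real.log c) := by
    rw [Real.exp_add, Real.exp_add, Real.exp_log ha, Real.exp_log hb, Real.exp_log hc]
  rw [h1, h2, h3, ← Real.exp_add, ← Real.exp_add]
  congr 1
  ring

theorem iadd {α : Type*} [MeasurableSpace α] {P : Measure α} {F G : α → ℝ} {a b : ℝ}
    (hF : Integrable F P ∧ ∫ p, F p ∂P = a) (hG : Integrable G P ∧ ∫ p, G p ∂P = b) :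
    Integrable (fun p => F p + G p) P ∧ ∫ p, (F p + G p) ∂P = a + b :=
  ⟨hF.1.add hG.1, by rw [integral_add hF.1 hG.1, hF.2, hG.2]⟩

theorem isub {α : Type*} [MeasurableSpace α] {P : Measure α} {F G : α → ℝ} {a b : ℝ}
    (hF : Integrable F P ∧ ∫ p, F p ∂P = a) (hG : Integrable G P ∧ ∫ p, G p ∂P = b) :
    Integrable (fun p => F p - G p) P ∧ ∫ p, (F p - G p) ∂P = a - b :=
  ⟨hF.1.sub hG.1, by rw [integral_sub hF.1 hG.1, hF.2, hG.2]⟩

theorem icmul {α : Type*} [MeasurableSpace α] {P : Measure α} {F : α → ℝ} {a : ℝ} (c : ℝ)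
    (hF : Integrable F P ∧ ∫ p, F p ∂P = a) :
    Integrable (fun p => c * F p) P ∧ ∫ p, c * F p ∂P = c * a :=
  ⟨hF.1.const_mul c, by rw [integral_const_mul, hF.2]⟩

theorem main (μ : Measure ℝ) [IsProbabilityMeasure μ] (hμ : μ ≪ volume)
    (h1 : Integrable (fun x : ℝ => Real.negMulLog (μ.rnDeriv volume x).toReal) volume)
    (h2 : Integrable (fun x : ℝ =>
        Real.negMulLog ((Measure.conv μ μ).rnDeriv volume x).toReal) volume)
    (h3 : Integrable (fun x : ℝ =>
        Real.negMulLog ((Measure.conv (Measure.conv μ μ) μ).rnDeriv volume x).toReal) volume) :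
    Real.log (4 / 3) / 2 ≤
        2 * (∫ x : ℝ, Real.negMulLog ((Measure.conv μ μ).rnDeriv volume x).toReal)
          - (∫ x : ℝ, Real.negMulLog
              ((Measure.conv (Measure.conv μ μ) μ).rnDeriv volume x).toReal)
          - (∫ x : ℝ, Real.negMulLog (μ.rnDeriv volume x).toReal) := by
  set μ2 : Measure ℝ := Measure.conv μ μ with hμ2
  set μ3 : Measure ℝ := Measure.conv μ2 μ with hμ3
  have hac2 : μ2 ≪ volume := Measure.conv_absolutelyContinuous hμ
  have hac3 : μ3 ≪ volume := Measure.conv_absolutelyContinuous hμ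
  set f : ℝ → ℝ≥0∞ := μ.rnDeriv volume with hf
  set f2 : ℝ → ℝ≥0∞ := μ2.rnDeriv volume with hf2
  set f3 : ℝ → ℝ≥0∞ := μ3.rnDeriv volume with hf3
  have mf : Measurable f := Measure.measurable_rnDeriv _ _
  have mf2 : Measurable f2 := Measure.measurable_rnDeriv _ _
  have mf3 : Measurable f3 := Measure.measurable_rnDeriv _ _
  obtain ⟨I1, J1⟩ := ent μ hμ h1
  obtain ⟨I2, J2⟩ := ent μ2 hac2 h2
  obtain ⟨I3, J3⟩ := ent μ3 hac3 h3
  set P : Measure ((ℝ × ℝ) × ℝ) := (μ.prod μ).prod μ with hP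
  -- laws
  have Mx : MeasurePreserving (fun p : (ℝ × ℝ) × ℝ => p.1.1) P μ :=
    measurePreserving_fst.comp measurePreserving_fst
  have My : MeasurePreserving (fun p : (ℝ × ℝ) × ℝ => p.1.2) P μ :=
    measurePreserving_snd.comp measurePreserving_fst
  have Mz : MeasurePreserving (fun p : (ℝ × ℝ) × ℝ => p.2) P μ := measurePreserving_snd
  have Madd : MeasurePreserving (fun p : ℝ × ℝ => p.1 + p.2) (μ.prod μ) μ2 := ⟨by fun_prop, rfl⟩
  have Mxy : MeasurePreserving (fun p : (ℝ × ℝ) × ℝ => p.1.1 + p.1.2) P μ2 :=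
    Madd.comp measurePreserving_fst
  have Mxz : MeasurePreserving (fun p : (ℝ × ℝ) × ℝ => p.1.1 + p.2) P μ2 :=
    Madd.comp (MeasurePreserving.prod (measurePreserving_fst (μ := μ) (ν := μ))
      (MeasurePreserving.id μ))
  have Myz : MeasurePreserving (fun p : (ℝ × ℝ) × ℝ => p.1.2 + p.2) P μ2 :=
    Madd.comp (MeasurePreserving.prod (measurePreserving_snd (μ := μ) (ν := μ))
      (MeasurePreserving.id μ))
  have Madd3 : MeasurePreserving (fun p : ℝ × ℝ => p.1 + p.2) (μ2.prod μ) μ3 := ⟨by fun_prop, rfl⟩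
  have Mxyz : MeasurePreserving (fun p : (ℝ × ℝ) × ℝ => p.1.1 + p.1.2 + p.2) P μ3 :=
    Madd3.comp (MeasurePreserving.prod Madd (MeasurePreserving.id μ))
  set L1 : ℝ → ℝ := fun x => Real.log (f x).toReal with hL1
  set L2 : ℝ → ℝ := fun x => Real.log (f2 x).toReal with hL2
  set L3 : ℝ → ℝ := fun x => Real.log (f3 x).toReal with hL3
  have mL1 : Measurable L1 := by fun_prop
  have mL2 : Measurable L2 := by fun_prop
  have mL3 : Measurable L3 := by fun_prop
  have K : ∀ {T : (ℝ × ℝ) × ℝ → ℝ} {ν : Measure ℝ} {L : ℝ → ℝ}, MeasurePreserving T P ν →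
      Integrable L ν → Measurable L → Integrable (fun p => L (T p)) P ∧
      ∫ p, L (T p) ∂P = ∫ x, L x ∂ν := by
    intro T ν L hT hL hLm
    refine ⟨hT.integrable_comp_of_integrable hL, ?_⟩
    rw [← hT.map_eq, integral_map hT.measurable.aemeasurable hLm.aestronglyMeasurable]
  have Kx := K Mx I1 mL1
  have Ky := K My I1 mL1
  have Kz := K Mz I1 mL1
  have Kxy := K Mxy I2 mL2
  have Kxz := K Mxz I2 mL2
  have Kyz := K Myz I2 mL2
  have Ks := K Mxyz I3 mL3
  set Λ : (ℝ × ℝ) × ℝ → ℝ := fun p => L1 p.1.1 + L1 p.1.2 + L1 p.2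
      - 2/3 * (L1 p.1.1 + L1 p.1.2 + L1 p.2 + L2 (p.1.2 + p.2) + L2 (p.1.1 + p.2)
        + L2 (p.1.1 + p.1.2)) + L3 (p.1.1 + p.1.2 + p.2) with hΛ
  have mΛ : Measurable Λ := by fun_prop
  have b1 := iadd (iadd Kx Ky) Kz
  have b2 := iadd (iadd (iadd b1 Kyz) Kxz) Kxy
  have b3 := iadd (isub b1 (icmul (2/3) b2)) Ks
  have IΛ : Integrable Λ P := b3.1
  have JΛ : ∫ p, Λ p ∂P = (∫ x, L1 x ∂μ) + (∫ x, L3 x ∂μ3) - 2 * ∫ x, L2 x ∂μ2 := by
    have := b3.2
    rw [hΛ, this]
    ring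
  -- the main estimate
  have hQ : ∫⁻ p, ENNReal.ofReal (Real.exp (-Λ p)) ∂P ≤ ENNReal.ofReal (Real.sqrt 3 / 2) := by
    set Q : (ℝ × ℝ) × ℝ → ℝ≥0∞ := fun p =>
      (f p.1.1 * f2 (p.1.2 + p.2) * (f p.1.2 * f2 (p.1.1 + p.2)) * (f p.2 * f2 (p.1.1 + p.1.2)))
        ^ (2/3 : ℝ) * (f3 (p.1.1 + p.1.2 + p.2))⁻¹ with hQdef
    have mQ : Measurable Q := by fun_prop
    set Dn : (ℝ × ℝ) × ℝ → ℝ≥0∞ := fun p => f p.1.1 * f p.1.2 * f p.2 with hDn
    have mDn : Measurable Dn := by fun_prop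
    have hPD : P = (volume : Measure ((ℝ × ℝ) × ℝ)).withDensity Dn := by
      have e1 : μ = (volume : Measure ℝ).withDensity f := (Measure.withDensity_rnDeriv_eq _ _ hμ).symm
      have e2 : μ.prod μ = (volume : Measure (ℝ × ℝ)).withDensity (fun p => f p.1 * f p.2) := by
        conv_lhs => rw [e1]
        rw [prod_withDensity mf mf]
        rfl
      rw [hP, e2]
      conv_lhs => rw [e1]
      rw [prod_withDensity (by fun_prop) mf]
      rfl
    have hae : ∀ᵐ p ∂P, Dn p * ENNReal.ofReal (Real.exp (-Λ p)) = Q p := by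
      have A1 := pos_fin μ hμ
      have A2 := pos_fin μ2 hac2
      have A3 := pos_fin μ3 hac3
      filter_upwards [Mx.quasiMeasurePreserving.ae A1, My.quasiMeasurePreserving.ae A1,
        Mz.quasiMeasurePreserving.ae A1, Mxy.quasiMeasurePreserving.ae A2,
        Mxz.quasiMeasurePreserving.ae A2, Myz.quasiMeasurePreserving.ae A2,
        Mxyz.quasiMeasurePreserving.ae A3] with p q1 q2 q3 q4 q5 q6 q7
      have T : ∀ {a : ℝ≥0∞}, 0 < a ∧ a < ∞ → 0 < a.toReal ∧ a = ENNReal.ofReal a.toReal :=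
        fun h => ⟨ENNReal.toReal_pos h.1.ne' h.2.ne, (ENNReal.ofReal_toReal h.2.ne).symm⟩
      obtain ⟨q1, r1⟩ := T q1
      obtain ⟨q2, r2⟩ := T q2
      obtain ⟨q3, r3⟩ := T q3
      obtain ⟨q4, r4⟩ := T q4
      obtain ⟨q5, r5⟩ := T q5
      obtain ⟨q6, r6⟩ := T q6
      obtain ⟨q7, r7⟩ := T q7
      have hal := alg _ _ _ _ _ _ _ q1 q2 q3 q6 q5 q4 q7
      have e1 : Dn p * ENNReal.ofReal (Real.exp (-Λ p)) = ENNReal.ofReal
          ((f p.1.1).toReal * (f p.1.2).toReal * (f p.2).toReal * Real.exp (-Λ p)) := by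
        rw [ENNReal.ofReal_mul (by positivity), ENNReal.ofReal_mul (by positivity),
          ENNReal.ofReal_mul (by positivity), ← r1, ← r2, ← r3]
      have e2 : Q p = ENNReal.ofReal (((f p.1.1).toReal * (f2 (p.1.2 + p.2)).toReal *
          ((f p.1.2).toReal * (f2 (p.1.1 + p.2)).toReal) *
          ((f p.2).toReal * (f2 (p.1.1 + p.1.2)).toReal)) ^ (2/3 : ℝ) *
          ((f3 (p.1.1 + p.1.2 + p.2)).toReal)⁻¹) := by
        rw [ENNReal.ofReal_mul (by positivity), ← ENNReal.ofReal_rpow_of_nonneg (by positivity)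
          (by norm_num), ENNReal.ofReal_mul (by positivity), ENNReal.ofReal_mul (by positivity),
          ENNReal.ofReal_mul (by positivity), ENNReal.ofReal_mul (by positivity),
          ENNReal.ofReal_mul (by positivity), ENNReal.ofReal_inv_of_pos q7,
          ← r1, ← r2, ← r3, ← r4, ← r5, ← r6, ← r7]
      rw [e1, e2, ← hal]
    have hle1 : ∫⁻ p, ENNReal.ofReal (Real.exp (-Λ p)) ∂P ≤ ∫⁻ p, Q p := by
      rw [hPD] at hae ⊢
      rw [ae_withDensity_iff mDn] at hae
      rw [lintegral_withDensity_eq_lintegral_mul _ mDn (by fun_prop)]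
      refine lintegral_mono_ae ?_
      filter_upwards [hae] with p hp
      by_cases h0 : Dn p = 0
      · simp [h0]
      · exact (hp h0).le
    refine hle1.trans ?_
    have hconv : ∀ᵐ s : ℝ, f3 s = ∫⁻ x, f x * f2 (-x + s) := by
      have e1 : μ3 = Measure.conv μ μ2 := by
        rw [hμ3, hμ2, Measure.conv_assoc]
      have h := rnDeriv_conv' (μ := (volume : Measure ℝ)) hμ hac2
      rw [← e1] at h
      filter_upwards [h] with s hs
      exact hs
    have e1 : ∫⁻ p, Q p = ∫⁻ q : ℝ × ℝ, ∫⁻ z : ℝ, Q (q, z) := lintegral_prod _ mQ.aemeasurable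
    have e2 : ∀ q : ℝ × ℝ, ∫⁻ z : ℝ, Q (q, z) = ∫⁻ s : ℝ, Q (q, s - (q.1 + q.2)) := fun q =>
      (lintegral_sub_right_eq_self (fun z => Q (q, z)) (q.1 + q.2)).symm
    have e3 : ∫⁻ q : ℝ × ℝ, ∫⁻ s : ℝ, Q (q, s - (q.1 + q.2)) =
        ∫⁻ s : ℝ, ∫⁻ q : ℝ × ℝ, Q (q, s - (q.1 + q.2)) := by
      refine lintegral_lintegral_swap ?_
      have : Measurable (Function.uncurry fun (q : ℝ × ℝ) (s : ℝ) => Q (q, s - (q.1 + q.2))) :=
        mQ.comp (by fun_prop)
      exact this.aemeasurable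
    rw [e1]
    simp_rw [e2]
    rw [e3]
    have e4 : ∀ᵐ s : ℝ, ∫⁻ q : ℝ × ℝ, Q (q, s - (q.1 + q.2)) ≤
        ENNReal.ofReal (Real.sqrt 3 / 2) * f3 s := by
      filter_upwards [hconv] with s hs
      set g : ℝ → ℝ≥0∞ := fun x => f x * f2 (-x + s) with hg
      have mg : Measurable g := by fun_prop
      have e5 : ∀ q : ℝ × ℝ, Q (q, s - (q.1 + q.2)) =
          (g q.1 * g q.2 * g (s - q.1 - q.2)) ^ (2/3 : ℝ) * (f3 s)⁻¹ := by
        intro q
        simp only [hQdef, hg]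
        have a1 : q.2 + (s - (q.1 + q.2)) = -q.1 + s := by ring
        have a2 : q.1 + (s - (q.1 + q.2)) = -q.2 + s := by ring
        have a3 : q.1 + q.2 + (s - (q.1 + q.2)) = s := by ring
        have a4 : -(s - q.1 - q.2) + s = q.1 + q.2 := by ring
        have a5 : s - (q.1 + q.2) = s - q.1 - q.2 := by ring
        rw [a1, a2, a3, a4, a5]
      simp_rw [e5]
      have m1 : Measurable fun q : ℝ × ℝ =>
          (g q.1 * g q.2 * g (s - q.1 - q.2)) ^ (2/3 : ℝ) := by fun_prop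
      rw [lintegral_mul_const _ m1]
      have h1 := young g mg s
      have h2 : ∫⁻ x, g x = f3 s := hs.symm
      rw [h2] at h1
      have h3 : f3 s * (f3 s)⁻¹ ≤ 1 := ENNReal.mul_inv_le_one _
      calc (∫⁻ q : ℝ × ℝ, (g q.1 * g q.2 * g (s - q.1 - q.2)) ^ (2/3 : ℝ)) * (f3 s)⁻¹
          ≤ ENNReal.ofReal (Real.sqrt 3 / 2) * f3 s ^ 2 * (f3 s)⁻¹ := by gcongr
        _ = ENNReal.ofReal (Real.sqrt 3 / 2) * f3 s * (f3 s * (f3 s)⁻¹) := by ring
        _ ≤ ENNReal.ofReal (Real.sqrt 3 / 2) * f3 s * 1 := by gcongr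
        _ = _ := mul_one _
    calc ∫⁻ s : ℝ, ∫⁻ q : ℝ × ℝ, Q (q, s - (q.1 + q.2))
        ≤ ∫⁻ s : ℝ, ENNReal.ofReal (Real.sqrt 3 / 2) * f3 s := lintegral_mono_ae e4
      _ = ENNReal.ofReal (Real.sqrt 3 / 2) * ∫⁻ s : ℝ, f3 s := lintegral_const_mul _ mf3
      _ = ENNReal.ofReal (Real.sqrt 3 / 2) * 1 := by
          rw [hf3, Measure.lintegral_rnDeriv hac3, measure_univ]
      _ = _ := mul_one _
  have mexp : Measurable fun p => Real.exp (-Λ p) := by fun_prop
  have Iexp : Integrable (fun p => Real.exp (-Λ p)) P := by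
    refine (lintegral_ofReal_ne_top_iff_integrable mexp.aestronglyMeasurable
      (Eventually.of_forall fun p => (Real.exp_pos _).le)).1 ?_
    exact (hQ.trans_lt ENNReal.ofReal_lt_top).ne
  have Jexp : ∫ p, Real.exp (-Λ p) ∂P ≤ Real.sqrt 3 / 2 := by
    rw [integral_eq_lintegral_of_nonneg_ae (Eventually.of_forall fun p => (Real.exp_pos _).le)
      mexp.aestronglyMeasurable]
    exact ENNReal.toReal_le_of_le_ofReal (by positivity) hQ
  set C : ℝ := Real.sqrt 3 / 2 with hC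
  have hCpos : 0 < C := by positivity
  have hpt : ∀ p, -Λ p ≤ C⁻¹ * Real.exp (-Λ p) + (Real.log C - 1) := by
    intro p
    have h := Real.log_le_sub_one_of_pos (x := C⁻¹ * Real.exp (-Λ p)) (by positivity)
    rw [Real.log_mul (by positivity) (by positivity), Real.log_inv, Real.log_exp] at h
    linarith
  have hfin : ∫ p, -Λ p ∂P ≤ ∫ p, (C⁻¹ * Real.exp (-Λ p) + (Real.log C - 1)) ∂P :=
    integral_mono IΛ.neg ((Iexp.const_mul _).add (integrable_const _)) hpt
  rw [integral_add (Iexp.const_mul _) (integrable_const _), integral_const_mul, integral_const,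
    integral_neg, JΛ] at hfin
  simp only [probReal_univ, one_smul] at hfin
  have hlast : C⁻¹ * ∫ p, Real.exp (-Λ p) ∂P ≤ 1 := by
    calc C⁻¹ * ∫ p, Real.exp (-Λ p) ∂P ≤ C⁻¹ * C := by gcongr
      _ = 1 := inv_mul_cancel₀ hCpos.ne'
  have hlog : Real.log (4 / 3) / 2 = -Real.log C := by
    rw [hC, Real.log_div (by norm_num) (by norm_num), Real.log_div (by positivity) (by norm_num),
      Real.log_sqrt (by norm_num)]
    have : Real.log 4 = 2 * Real.log 2 := by
      rw [show (4:ℝ) = 2 ^ 2 by norm_num, Real.log_pow]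
      norm_num
    rw [this]
    ring
  rw [hlog]
  have j1 : ∫ x, L1 x ∂μ = -∫ x, Real.negMulLog (f x).toReal := J1
  have j2 : ∫ x, L2 x ∂μ2 = -∫ x, Real.negMulLog (f2 x).toReal := J2
  have j3 : ∫ x, L3 x ∂μ3 = -∫ x, Real.negMulLog (f3 x).toReal := J3
  rw [j1, j2, j3] at hfin
  linarith

end Pool.Agent.Helper164.EG
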