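import Mathlib

set_option autoImplicit false

namespace Pool.Agent.Helper164.EG

open MeasureTheory Set Filter Topology
open scoped ENNReal NNReal

/-- properties of the distribution function of a positive continuous integrable density -/
theorem cum (g : ℝ → ℝ) (hc : Continuous g) (hpos : ∀ x, 0 < g x) (hi : Integrable g) :
    (∀ t, HasDerivAt (fun t => ∫ x in Iic t, g x) (g t) t) ∧
    StrictMono (fun t => ∫ x in Iic t, g x) ∧
    (∀ c, 0 < c → c < ∫ x, g x → ∃ t, ∫ x in Iic t, g x = c) ∧
    (∀ t, 0 < ∫ x in Iic t, g x ∧ ∫ x in Iic t, g x < ∫ x, g x) := by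
  have hd : ∀ t, HasDerivAt (fun t => ∫ x in Iic t, g x) (g t) t := by
    intro t
    have h1 : (fun t => ∫ x in Iic t, g x) = fun t => (∫ x in (0:ℝ)..t, g x) + ∫ x in Iic 0, g x := by
      funext t
      have := intervalIntegral.integral_Iic_sub_Iic (a := 0) (b := t) (f := g) (μ := volume)
        hi.integrableOn hi.integrableOn
      linarith
    rw [h1]
    exact ((intervalIntegral.integral_hasDerivAt_right (hc.intervalIntegrable _ _)
      (hc.stronglyMeasurableAtFilter _ _) hc.continuousAt)).add_const _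
  have hm : StrictMono (fun t => ∫ x in Iic t, g x) := by
    intro a b hab
    have h1 := intervalIntegral.integral_Iic_sub_Iic (a := a) (b := b) (f := g) (μ := volume)
        hi.integrableOn hi.integrableOn
    have h2 : 0 < ∫ x in a..b, g x :=
      intervalIntegral.intervalIntegral_pos_of_pos_on (hc.intervalIntegrable _ _)
        (fun x _ => hpos x) hab
    show ∫ x in Iic a, g x < ∫ x in Iic b, g x
    linarith
  have hcont : Continuous (fun t => ∫ x in Iic t, g x) :=
    continuous_iff_continuousAt.2 fun t => (hd t).continuousAt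
  have htop : Tendsto (fun t => ∫ x in Iic t, g x) atTop (𝓝 (∫ x, g x)) :=
    (aecover_Iic tendsto_id).integral_tendsto_of_countably_generated hi
  have hbot : Tendsto (fun t => ∫ x in Iic t, g x) atBot (𝓝 0) := by
    have h1 : Tendsto (fun t => ∫ x in Ioi t, g x) atBot (𝓝 (∫ x, g x)) :=
      (aecover_Ioi tendsto_id).integral_tendsto_of_countably_generated hi
    have h2 : (fun t => ∫ x in Iic t, g x) = fun t => (∫ x, g x) - ∫ x in Ioi t, g x := by
      funext t
      have := intervalIntegral.integral_Iic_add_Ioi (b := t) (f := g) (μ := volume)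
        hi.integrableOn hi.integrableOn
      linarith
    rw [h2]
    simpa using h1.const_sub (∫ x, g x)
  have hlt : ∀ t, 0 < ∫ x in Iic t, g x ∧ ∫ x in Iic t, g x < ∫ x, g x := by
    intro t
    constructor
    · have h1 : 0 ≤ ∫ x in Iic (t - 1), g x :=
        setIntegral_nonneg measurableSet_Iic fun x _ => (hpos x).le
      exact h1.trans_lt (hm (by linarith))
    · have h1 : ∫ x in Iic (t + 1), g x ≤ ∫ x, g x :=
        setIntegral_le_integral hi (Eventually.of_forall fun x => (hpos x).le)
      exact lt_of_lt_of_le (hm (by linarith)) h1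
  refine ⟨hd, hm, ?_, hlt⟩
  intro c h0 h1
  have e1 : ∃ t, (fun t => ∫ x in Iic t, g x) t ≤ c := by
    obtain ⟨t, ht⟩ := (hbot.eventually (gt_mem_nhds h0)).exists
    exact ⟨t, le_of_lt ht⟩
  have e2 : ∃ t, c ≤ (fun t => ∫ x in Iic t, g x) t := by
    obtain ⟨t, ht⟩ := (htop.eventually (lt_mem_nhds h1)).exists
    exact ⟨t, le_of_lt ht⟩
  obtain ⟨t, ht⟩ := mem_range_of_exists_le_of_exists_ge hcont e1 e2
  exact ⟨t, ht⟩

/-- the standard Gaussian density -/
noncomputable def gam (t : ℝ) : ℝ := Real.exp (-(t ^ 2) / 2) / Real.sqrt (2 * Real.pi)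

theorem gam_pos (t : ℝ) : 0 < gam t := by
  unfold gam; positivity

theorem gam_cont : Continuous gam := by
  unfold gam; fun_prop

theorem gam_int : Integrable gam ∧ ∫ t, gam t = 1 := by
  have e : gam = fun t => Real.exp (-(1/2) * t ^ 2) / Real.sqrt (2 * Real.pi) := by
    funext t; unfold gam; congr 2; ring
  rw [e]
  refine ⟨(integrable_exp_neg_mul_sq (by norm_num)).div_const _, ?_⟩
  rw [integral_div, integral_gaussian]
  have : Real.pi / (1/2) = 2 * Real.pi := by ring
  rw [this]
  exact div_self (by positivity)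

/-- the monotone transport of a density to the Gaussian -/
theorem exists_transport (g : ℝ → ℝ) (hc : Continuous g) (hpos : ∀ x, 0 < g x)
    (hi : Integrable g) :
    ∃ T T' : ℝ → ℝ, StrictMono T ∧ (∀ t, HasDerivAt T (T' t) t) ∧ (∀ t, 0 < T' t) ∧
      ∀ t, g t = (∫ x, g x) * (T' t * gam (T t)) := by
  obtain ⟨gd, gm, gs, gb⟩ := cum g hc hpos hi
  obtain ⟨cd, cm, cs, cb⟩ := cum gam gam_cont gam_pos gam_int.1
  rw [gam_int.2] at cs cb
  set G : ℝ → ℝ := fun t => ∫ x in Iic t, g x with hG
  set C : ℝ → ℝ := fun t => ∫ x in Iic t, gam x with hC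
  set M : ℝ := ∫ x, g x with hM
  have hMpos : 0 < M := (gb 0).1.trans (gb 0).2
  have hex : ∀ t, ∃ u, C u = G t / M := by
    intro t
    exact cs _ (div_pos (gb t).1 hMpos) ((div_lt_one hMpos).2 (gb t).2)
  choose T hT using hex
  have hTm : StrictMono T := by
    intro a b hab
    have : G a / M < G b / M := (div_lt_div_iff_of_pos_right hMpos).2 (gm hab)
    rw [← hT, ← hT] at this
    exact cm.lt_iff_lt.1 this
  have hTs : Function.Surjective T := by
    intro u
    obtain ⟨t, ht⟩ := gs (C u * M) (mul_pos (cb u).1 hMpos) (by nlinarith [(cb u).2])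
    refine ⟨t, ?_⟩
    apply cm.injective
    show C (T t) = C u
    rw [hT]
    show (∫ x in Iic t, g x) / M = C u
    rw [ht]
    field_simp
  have hTc : Continuous T := hTm.monotone.continuous_of_surjective hTs
  refine ⟨T, fun t => (g t / M) / gam (T t), hTm, ?_, ?_, ?_⟩
  · intro t
    have h1 : Tendsto (slope (fun t => G t / M) t) (𝓝[≠] t) (𝓝 (g t / M)) :=
      hasDerivAt_iff_tendsto_slope.1 ((gd t).div_const M)
    have h2 : Tendsto (slope C (T t)) (𝓝[≠] (T t)) (𝓝 (gam (T t))) :=
      hasDerivAt_iff_tendsto_slope.1 (cd (T t))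
    have h3 : Tendsto T (𝓝[≠] t) (𝓝[≠] (T t)) := by
      refine tendsto_nhdsWithin_iff.2 ⟨(hTc.tendsto t).mono_left nhdsWithin_le_nhds, ?_⟩
      filter_upwards [self_mem_nhdsWithin] with s hs
      exact fun h => hs (hTm.injective h)
    have h4 := h1.div (h2.comp h3) (gam_pos _).ne'
    rw [hasDerivAt_iff_tendsto_slope]
    refine h4.congr' ?_
    filter_upwards [self_mem_nhdsWithin] with s hs
    have hs' : s - t ≠ 0 := sub_ne_zero.2 hs
    have hTs' : T s - T t ≠ 0 := sub_ne_zero.2 (fun h => hs (hTm.injective h))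
    have hCs : C (T s) - C (T t) ≠ 0 :=
      sub_ne_zero.2 (fun h => hs (hTm.injective (cm.injective h)))
    simp only [Pi.div_apply, Function.comp, slope_def_field]
    rw [← hT s, ← hT t]
    field_simp
  · intro t
    exact div_pos (div_pos (hpos t) hMpos) (gam_pos _)
  · intro t
    have := (gam_pos (T t)).ne'
    field_simp

end Pool.Agent.Helper164.EG
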