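import Pool.Agent.Helper164.EG.YoungNice

set_option autoImplicit false

namespace Pool.Agent.Helper164.EG

open MeasureTheory Set Filter Topology
open scoped ENNReal NNReal

theorem qmp3 (s : ℝ) : Measure.QuasiMeasurePreserving (fun p : ℝ × ℝ => s - p.1 - p.2)
    volume volume := by
  have h1 : Measure.QuasiMeasurePreserving (fun p : ℝ × ℝ => p.1 + p.2)
      (volume.prod volume) (volume : Measure ℝ) := quasiMeasurePreserving_add _ _
  have h2 : Measure.QuasiMeasurePreserving (fun x : ℝ => s - x) volume volume :=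
    quasiMeasurePreserving_sub_left volume s
  have h3 := h2.comp h1
  have e : ((fun x : ℝ => s - x) ∘ fun p : ℝ × ℝ => p.1 + p.2) =
      fun p : ℝ × ℝ => s - p.1 - p.2 := by
    funext p; simp only [Function.comp]; ring
  rw [e] at h3
  exact h3

/-- approximation in `L¹` by positive continuous functions -/
theorem approx (h : ℝ → ℝ) (h0 : ∀ x, 0 ≤ h x) (hi : Integrable h) :
    ∃ G : ℕ → ℝ → ℝ, (∀ n, Continuous (G n)) ∧ (∀ n x, 0 < G n x) ∧ (∀ n, Integrable (G n)) ∧
      (∀ᵐ x, Tendsto (fun n => G n x) atTop (𝓝 (h x))) ∧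
      Tendsto (fun n => ∫ x, G n x) atTop (𝓝 (∫ x, h x)) := by
  have hex : ∀ n : ℕ, ∃ φ : ℝ → ℝ, HasCompactSupport φ ∧ (∫ x, ‖h x - φ x‖) ≤ 1 / ((n : ℝ) + 1) ∧
      Continuous φ ∧ Integrable φ := fun n =>
    hi.exists_hasCompactSupport_integral_sub_le (by positivity)
  choose φ hφ1 hφ2 hφ3 hφ4 using hex
  have hgi : Integrable (fun x : ℝ => Real.exp (-1 * x ^ 2)) := integrable_exp_neg_mul_sq one_pos
  set G : ℕ → ℝ → ℝ := fun n x => |φ n x| + 1 / ((n : ℝ) + 1) * Real.exp (-1 * x ^ 2) with hG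
  have hGc : ∀ n, Continuous (G n) := fun n => by
    have := hφ3 n
    simp only [hG]
    fun_prop
  have hGp : ∀ n x, 0 < G n x := fun n x => by
    simp only [hG]
    positivity
  have hGi : ∀ n, Integrable (G n) := fun n => (hφ4 n).abs.add (hgi.const_mul _)
  set c : ℝ := ∫ x : ℝ, Real.exp (-1 * x ^ 2) with hc
  have hdist : ∀ n, ∫ x, ‖G n x - h x‖ ≤ (1 + c) * (1 / ((n : ℝ) + 1)) := by
    intro n
    calc ∫ x, ‖G n x - h x‖ ≤ ∫ x, (‖h x - φ n x‖ + 1 / ((n : ℝ) + 1) * Real.exp (-1 * x ^ 2)) := by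
          refine integral_mono ((hGi n).sub hi).norm
            (((hi.sub (hφ4 n)).norm).add (hgi.const_mul _)) fun x => ?_
          simp only [hG, Real.norm_eq_abs]
          have h1 : |(|φ n x| - h x)| ≤ |h x - φ n x| := by
            have := abs_abs_sub_abs_le_abs_sub (φ n x) (h x)
            rw [abs_of_nonneg (h0 x), abs_sub_comm (φ n x) (h x)] at this
            exact this
          have h2 : 0 ≤ 1 / ((n : ℝ) + 1) * Real.exp (-1 * x ^ 2) := by positivity
          calc |(|φ n x| + 1 / ((n : ℝ) + 1) * Real.exp (-1 * x ^ 2) - h x)|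
              = |(|φ n x| - h x) + 1 / ((n : ℝ) + 1) * Real.exp (-1 * x ^ 2)| := by ring_nf
            _ ≤ |(|φ n x| - h x)| + |1 / ((n : ℝ) + 1) * Real.exp (-1 * x ^ 2)| := abs_add_le _ _
            _ ≤ _ := by rw [abs_of_nonneg h2]; linarith
      _ = (∫ x, ‖h x - φ n x‖) + 1 / ((n : ℝ) + 1) * c := by
          have hn : Integrable (fun x => ‖h x - φ n x‖) := (hi.sub (hφ4 n)).norm
          rw [integral_add hn (hgi.const_mul _), integral_const_mul]
      _ ≤ _ := by linarith [hφ2 n]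
  have hlim : Tendsto (fun n : ℕ => (1 + c) * (1 / ((n : ℝ) + 1))) atTop (𝓝 0) := by
    have := (tendsto_one_div_add_atTop_nhds_zero_nat (𝕜 := ℝ)).const_mul (1 + c)
    simpa using this
  have hdist0 : Tendsto (fun n => ∫ x, ‖G n x - h x‖) atTop (𝓝 0) :=
    squeeze_zero (fun n => integral_nonneg fun x => norm_nonneg _) hdist hlim
  have hL : Tendsto (fun n => eLpNorm (G n - h) 1 volume) atTop (𝓝 0) := by
    have e : ∀ n, eLpNorm (G n - h) 1 volume = ENNReal.ofReal (∫ x, ‖G n x - h x‖) := by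
      intro n
      rw [eLpNorm_one_eq_lintegral_enorm]
      exact (ofReal_integral_norm_eq_lintegral_enorm ((hGi n).sub hi)).symm
    simp_rw [e]
    have := (ENNReal.continuous_ofReal.tendsto 0).comp hdist0
    rw [ENNReal.ofReal_zero] at this
    exact this
  obtain ⟨ns, hns, hae⟩ := (tendstoInMeasure_of_tendsto_eLpNorm one_ne_zero
    (fun n => (hGi n).aestronglyMeasurable) hi.aestronglyMeasurable hL).exists_seq_tendsto_ae
  refine ⟨fun n => G (ns n), fun n => hGc _, fun n x => hGp _ x, fun n => hGi _, hae, ?_⟩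
  have h1 : Tendsto (fun n => ∫ x, G n x) atTop (𝓝 (∫ x, h x)) := by
    rw [tendsto_iff_norm_sub_tendsto_zero]
    refine squeeze_zero (fun n => norm_nonneg _) (fun n => ?_) hdist0
    rw [← integral_sub (hGi n) hi]
    exact norm_integral_le_integral_norm _
  exact h1.comp hns.tendsto_atTop

/-- the sharp Young inequality with exponents `3/2, 3/2, 3/2` for three equal functions -/
theorem young (g : ℝ → ℝ≥0∞) (hg : Measurable g) (s : ℝ) :
    ∫⁻ p : ℝ × ℝ, (g p.1 * g p.2 * g (s - p.1 - p.2)) ^ (2/3 : ℝ) ≤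
      ENNReal.ofReal (Real.sqrt 3 / 2) * (∫⁻ x, g x) ^ 2 := by
  by_cases hfin : ∫⁻ x, g x = ∞
  · rw [hfin]
    have : ENNReal.ofReal (Real.sqrt 3 / 2) * (∞ : ℝ≥0∞) ^ 2 = ∞ := by
      rw [ENNReal.top_pow (by norm_num), ENNReal.mul_top]
      simp
    rw [this]
    exact le_top
  · set h : ℝ → ℝ := fun x => (g x).toReal with hh
    have hi : Integrable h := integrable_toReal_of_lintegral_ne_top hg.aemeasurable hfin
    have hgfin : ∀ᵐ x, g x < ∞ := ae_lt_top hg hfin
    have hint : ∫⁻ x, g x = ENNReal.ofReal (∫ x, h x) := by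
      rw [ofReal_integral_eq_lintegral_ofReal hi (Eventually.of_forall fun x => ENNReal.toReal_nonneg)]
      refine lintegral_congr_ae ?_
      filter_upwards [hgfin] with x hx
      rw [hh, ENNReal.ofReal_toReal hx.ne]
    obtain ⟨G, hGc, hGp, hGi, hae, hlim⟩ := approx h (fun x => ENNReal.toReal_nonneg) hi
    have hle : ∀ n, ∫⁻ p : ℝ × ℝ,
        ENNReal.ofReal ((G n p.1 * G n p.2 * G n (s - p.1 - p.2)) ^ (2/3 : ℝ)) ≤
        ENNReal.ofReal (Real.sqrt 3 / 2 * (∫ x, G n x) ^ 2) := fun n =>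
      young_nice (G n) (hGc n) (hGp n) (hGi n) s
    have hptw : ∀ᵐ p : ℝ × ℝ, (g p.1 * g p.2 * g (s - p.1 - p.2)) ^ (2/3 : ℝ) =
        liminf (fun n => ENNReal.ofReal ((G n p.1 * G n p.2 * G n (s - p.1 - p.2)) ^ (2/3 : ℝ)))
          atTop := by
      have q1 : Measure.QuasiMeasurePreserving (fun p : ℝ × ℝ => p.1) volume volume :=
        Measure.quasiMeasurePreserving_fst
      have q2 : Measure.QuasiMeasurePreserving (fun p : ℝ × ℝ => p.2) volume volume :=
        Measure.quasiMeasurePreserving_snd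
      filter_upwards [q1.ae hgfin, q2.ae hgfin, (qmp3 s).ae hgfin, q1.ae hae, q2.ae hae,
        (qmp3 s).ae hae] with p f1 f2 f3 l1 l2 l3
      have h1 : Tendsto (fun n => (G n p.1 * G n p.2 * G n (s - p.1 - p.2)) ^ (2/3 : ℝ)) atTop
          (𝓝 ((h p.1 * h p.2 * h (s - p.1 - p.2)) ^ (2/3 : ℝ))) :=
        ((l1.mul l2).mul l3).rpow_const (Or.inr (by norm_num))
      have h2 := (ENNReal.continuous_ofReal.tendsto _).comp h1
      have h3 : ENNReal.ofReal ((h p.1 * h p.2 * h (s - p.1 - p.2)) ^ (2/3 : ℝ)) =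
          (g p.1 * g p.2 * g (s - p.1 - p.2)) ^ (2/3 : ℝ) := by
        rw [← ENNReal.ofReal_rpow_of_nonneg (by positivity) (by norm_num),
          ENNReal.ofReal_mul (by positivity), ENNReal.ofReal_mul (by positivity)]
        simp only [hh]
        rw [ENNReal.ofReal_toReal f1.ne, ENNReal.ofReal_toReal f2.ne, ENNReal.ofReal_toReal f3.ne]
      rw [← h3]
      exact (h2.liminf_eq).symm
    calc ∫⁻ p : ℝ × ℝ, (g p.1 * g p.2 * g (s - p.1 - p.2)) ^ (2/3 : ℝ)
        = ∫⁻ p : ℝ × ℝ, liminf (fun n =>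
          ENNReal.ofReal ((G n p.1 * G n p.2 * G n (s - p.1 - p.2)) ^ (2/3 : ℝ))) atTop :=
          lintegral_congr_ae hptw
      _ ≤ liminf (fun n => ∫⁻ p : ℝ × ℝ,
          ENNReal.ofReal ((G n p.1 * G n p.2 * G n (s - p.1 - p.2)) ^ (2/3 : ℝ))) atTop := by
          refine lintegral_liminf_le fun n => ?_
          have := (hGc n).measurable
          have m1 : Measurable fun p : ℝ × ℝ => G n p.1 := this.comp measurable_fst
          have m2 : Measurable fun p : ℝ × ℝ => G n p.2 := this.comp measurable_snd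
          have m3 : Measurable fun p : ℝ × ℝ => G n (s - p.1 - p.2) := this.comp (by fun_prop)
          exact (((m1.mul m2).mul m3).pow_const _).ennreal_ofReal
      _ ≤ liminf (fun n => ENNReal.ofReal (Real.sqrt 3 / 2 * (∫ x, G n x) ^ 2)) atTop :=
          liminf_le_liminf (Eventually.of_forall hle)
      _ = ENNReal.ofReal (Real.sqrt 3 / 2 * (∫ x, h x) ^ 2) := by
          refine Tendsto.liminf_eq ?_
          exact (ENNReal.continuous_ofReal.tendsto _).comp ((hlim.pow 2).const_mul _)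
      _ = _ := by
          rw [hint, ENNReal.ofReal_mul (by positivity), ENNReal.ofReal_pow]
          exact integral_nonneg fun x => ENNReal.toReal_nonneg

end Pool.Agent.Helper164.EG
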