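import Pool.Agent.Helper164.EG.Transport

set_option autoImplicit false

namespace Pool.Agent.Helper164.EG

open MeasureTheory Set Filter Topology
open scoped ENNReal NNReal

/-- the two-dimensional Gaussian integral -/
theorem gauss2 : ∫⁻ p : ℝ × ℝ, ENNReal.ofReal (Real.exp (-(2/9) * (p.1 ^ 2 - p.1 * p.2 + p.2 ^ 2)))
    = ENNReal.ofReal (3 * Real.sqrt 3 * Real.pi) := by
  have e : ∀ (b : ℝ), 0 < b → ∀ c : ℝ, ∫⁻ x : ℝ, ENNReal.ofReal (Real.exp (-b * (x - c) ^ 2))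
      = ENNReal.ofReal (Real.sqrt (Real.pi / b)) := by
    intro b hb c
    rw [← integral_gaussian b]
    rw [lintegral_sub_right_eq_self (fun x => ENNReal.ofReal (Real.exp (-b * x ^ 2))) c]
    rw [ofReal_integral_eq_lintegral_ofReal (integrable_exp_neg_mul_sq hb)
      (Eventually.of_forall fun x => (Real.exp_pos _).le)]
  have hm : Measurable fun p : ℝ × ℝ =>
      ENNReal.ofReal (Real.exp (-(2/9) * (p.1 ^ 2 - p.1 * p.2 + p.2 ^ 2))) := by fun_prop
  have h1 : ∫⁻ p : ℝ × ℝ, ENNReal.ofReal (Real.exp (-(2/9) * (p.1 ^ 2 - p.1 * p.2 + p.2 ^ 2)))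
      = ∫⁻ y : ℝ, ∫⁻ x : ℝ, ENNReal.ofReal (Real.exp (-(2/9) * (x ^ 2 - x * y + y ^ 2))) :=
    lintegral_prod_symm' _ hm
  rw [h1]
  have h2 : ∀ y : ℝ, ∫⁻ x : ℝ, ENNReal.ofReal (Real.exp (-(2/9) * (x ^ 2 - x * y + y ^ 2)))
      = ENNReal.ofReal (Real.sqrt (Real.pi / (2/9))) *
        ENNReal.ofReal (Real.exp (-(1/6) * (y - 0) ^ 2)) := by
    intro y
    rw [← e (2/9) (by norm_num) (y / 2), ← lintegral_mul_const _ (by fun_prop)]
    refine lintegral_congr fun x => ?_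
    rw [← ENNReal.ofReal_mul (Real.exp_pos _).le, ← Real.exp_add]
    congr 2
    ring
  simp_rw [h2]
  rw [lintegral_const_mul _ (by fun_prop), e (1/6) (by norm_num) 0,
    ← ENNReal.ofReal_mul (Real.sqrt_nonneg _), ← Real.sqrt_mul (by positivity)]
  congr 1
  have : Real.pi / (2/9) * (Real.pi / (1/6)) = (3 * Real.sqrt 3 * Real.pi) ^ 2 := by
    rw [mul_pow, mul_pow, Real.sq_sqrt (by norm_num)]
    ring
  rw [this, Real.sqrt_sq (by positivity)]

theorem amgm (a b c : ℝ) (ha : 0 ≤ a) (hb : 0 ≤ b) (hc : 0 ≤ c) :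
    3 * (a * b * c) ^ (2/3 : ℝ) ≤ a * b + b * c + c * a := by
  have h := Real.geom_mean_le_arith_mean3_weighted (w₁ := 1/3) (w₂ := 1/3) (w₃ := 1/3)
    (p₁ := a * b) (p₂ := b * c) (p₃ := c * a) (by norm_num) (by norm_num) (by norm_num)
    (by positivity) (by positivity) (by positivity) (by norm_num)
  have e : (a * b) ^ (1/3 : ℝ) * (b * c) ^ (1/3 : ℝ) * (c * a) ^ (1/3 : ℝ) =
      (a * b * c) ^ (2/3 : ℝ) := by
    rw [← Real.mul_rpow (by positivity) (by positivity),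
      ← Real.mul_rpow (by positivity) (by positivity)]
    have : a * b * (b * c) * (c * a) = (a * b * c) ^ (2:ℝ) := by
      rw [Real.rpow_two]; ring
    rw [this, ← Real.rpow_mul (by positivity)]
    norm_num
  rw [e] at h
  linarith

/-- the change of variables map -/
noncomputable def FF (T : ℝ → ℝ) (s : ℝ) (p : ℝ × ℝ) : ℝ × ℝ :=
  (T p.1 - T (s - p.1 - p.2), T p.2 - T (s - p.1 - p.2))

/-- its derivative -/
noncomputable def FF' (a b c : ℝ) : ℝ × ℝ →L[ℝ] ℝ × ℝ :=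
  LinearMap.toContinuousLinearMap (Matrix.toLin (Module.Basis.finTwoProd ℝ)
    (Module.Basis.finTwoProd ℝ) !![a + c, c; c, b + c])

theorem FF'_det (a b c : ℝ) : (FF' a b c).det = a * b + b * c + c * a := by
  unfold FF'
  rw [LinearMap.det_toContinuousLinearMap, LinearMap.det_toLin, Matrix.det_fin_two_of]
  ring

theorem FF_deriv (T T' : ℝ → ℝ) (hT : ∀ t, HasDerivAt T (T' t) t) (s : ℝ) (p : ℝ × ℝ) :
    HasFDerivAt (FF T s) (FF' (T' p.1) (T' p.2) (T' (s - p.1 - p.2))) p := by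
  unfold FF'
  rw [Matrix.toLin_finTwoProd_toContinuousLinearMap]
  have h1 : HasFDerivAt (fun p : ℝ × ℝ => T p.1) (T' p.1 • ContinuousLinearMap.fst ℝ ℝ ℝ) p :=
    (hT p.1).comp_hasFDerivAt p hasFDerivAt_fst
  have h2 : HasFDerivAt (fun p : ℝ × ℝ => T p.2) (T' p.2 • ContinuousLinearMap.snd ℝ ℝ ℝ) p :=
    (hT p.2).comp_hasFDerivAt p hasFDerivAt_snd
  have h3' : HasFDerivAt (fun p : ℝ × ℝ => s - p.1 - p.2)
      (-ContinuousLinearMap.fst ℝ ℝ ℝ - ContinuousLinearMap.snd ℝ ℝ ℝ) p :=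
    (hasFDerivAt_fst.const_sub s).sub hasFDerivAt_snd
  have h3 : HasFDerivAt (fun p : ℝ × ℝ => T (s - p.1 - p.2))
      (T' (s - p.1 - p.2) • (-ContinuousLinearMap.fst ℝ ℝ ℝ - ContinuousLinearMap.snd ℝ ℝ ℝ)) p :=
    (hT (s - p.1 - p.2)).comp_hasFDerivAt p h3'
  have h4 := (h1.sub h3).prodMk (h2.sub h3)
  refine h4.congr_fderiv ?_
  ext <;> simp <;> ring

theorem FF_inj (T : ℝ → ℝ) (hT : StrictMono T) (s : ℝ) : Function.Injective (FF T s) := by
  rintro ⟨x, y⟩ ⟨x', y'⟩ h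
  simp only [FF, Prod.mk.injEq] at h
  obtain ⟨h1, h2⟩ := h
  rcases lt_trichotomy (s - x - y) (s - x' - y') with hl | he | hg
  · have h3 := hT hl
    have h4 : x < x' := hT.lt_iff_lt.1 (by linarith)
    have h5 : y < y' := hT.lt_iff_lt.1 (by linarith)
    linarith
  · rw [he] at h1 h2
    have h4 : x = x' := hT.injective (by linarith)
    have h5 : y = y' := hT.injective (by linarith)
    rw [h4, h5]
  · have h3 := hT hg
    have h4 : x' < x := hT.lt_iff_lt.1 (by linarith)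
    have h5 : y' < y := hT.lt_iff_lt.1 (by linarith)
    linarith

/-- the sharp inequality for nice functions -/
theorem young_nice (g : ℝ → ℝ) (hc : Continuous g) (hpos : ∀ x, 0 < g x)
    (hi : Integrable g) (s : ℝ) :
    ∫⁻ p : ℝ × ℝ, ENNReal.ofReal ((g p.1 * g p.2 * g (s - p.1 - p.2)) ^ (2/3 : ℝ)) ≤
      ENNReal.ofReal (Real.sqrt 3 / 2 * (∫ x, g x) ^ 2) := by
  obtain ⟨T, T', hTm, hTd, hT', hTg⟩ := exists_transport g hc hpos hi
  set M : ℝ := ∫ x, g x with hM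
  have hM0 : 0 ≤ M := integral_nonneg fun x => (hpos x).le
  set E : ℝ × ℝ → ℝ≥0∞ := fun p =>
    ENNReal.ofReal (Real.exp (-(2/9) * (p.1 ^ 2 - p.1 * p.2 + p.2 ^ 2))) with hE
  have hcv : ∫⁻ p : ℝ × ℝ, ENNReal.ofReal |(FF' (T' p.1) (T' p.2) (T' (s - p.1 - p.2))).det| *
      E (FF T s p) ≤ ENNReal.ofReal (3 * Real.sqrt 3 * Real.pi) := by
    have h := lintegral_image_eq_lintegral_abs_det_fderiv_mul (volume : Measure (ℝ × ℝ))
      MeasurableSet.univ (f := FF T s)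
      (f' := fun p => FF' (T' p.1) (T' p.2) (T' (s - p.1 - p.2)))
      (fun p _ => (FF_deriv T T' hTd s p).hasFDerivWithinAt) (FF_inj T hTm s).injOn E
    rw [Measure.restrict_univ] at h
    rw [← h, ← gauss2]
    exact setLIntegral_le_lintegral _ _
  have hpt : ∀ p : ℝ × ℝ, ENNReal.ofReal ((g p.1 * g p.2 * g (s - p.1 - p.2)) ^ (2/3 : ℝ)) ≤
      ENNReal.ofReal (M ^ 2 / (6 * Real.pi)) *
      (ENNReal.ofReal |(FF' (T' p.1) (T' p.2) (T' (s - p.1 - p.2))).det| * E (FF T s p)) := by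
    rintro ⟨x, y⟩
    simp only [hE, FF]
    set z := s - x - y with hz
    rw [FF'_det, hTg x, hTg y, hTg z]
    have ha := hT' x
    have hb := hT' y
    have hcc := hT' z
    set α := T' x
    set β := T' y
    set κ := T' z
    set a := T x
    set b := T y
    set c := T z
    rw [abs_of_nonneg (by positivity), ← ENNReal.ofReal_mul (by positivity),
      ← ENNReal.ofReal_mul (by positivity)]
    refine ENNReal.ofReal_le_ofReal ?_
    have e1 : M * (α * gam a) * (M * (β * gam b)) * (M * (κ * gam c)) =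
        M ^ 3 * (α * β * κ) * (gam a * gam b * gam c) := by ring
    have e2 : gam a * gam b * gam c =
        Real.exp (-((a ^ 2 + b ^ 2 + c ^ 2) / 2)) / (2 * Real.pi) ^ (3/2 : ℝ) := by
      unfold gam
      have h1 : (2 * Real.pi) ^ (3/2 : ℝ) =
          Real.sqrt (2 * Real.pi) * Real.sqrt (2 * Real.pi) * Real.sqrt (2 * Real.pi) := by
        rw [Real.mul_self_sqrt (by positivity), Real.sqrt_eq_rpow]
        nth_rewrite 2 [← Real.rpow_one (2 * Real.pi)]
        rw [← Real.rpow_add (by positivity)]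
        norm_num
      have h2 : Real.exp (-((a ^ 2 + b ^ 2 + c ^ 2) / 2)) =
          Real.exp (-a ^ 2 / 2) * Real.exp (-b ^ 2 / 2) * Real.exp (-c ^ 2 / 2) := by
        rw [← Real.exp_add, ← Real.exp_add]; congr 1; ring
      rw [h1, h2]
      field_simp
    rw [e1, e2]
    have hpi : 0 < Real.pi := Real.pi_pos
    rw [Real.mul_rpow (by positivity) (by positivity), Real.mul_rpow (by positivity) (by positivity),
      Real.div_rpow (by positivity) (by positivity)]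
    have e3 : (M ^ 3) ^ (2/3 : ℝ) = M ^ 2 := by
      rw [← Real.rpow_natCast M 3, ← Real.rpow_mul hM0, ← Real.rpow_natCast M 2]
      norm_num
    have e4 : ((2 * Real.pi) ^ (3/2 : ℝ)) ^ (2/3 : ℝ) = 2 * Real.pi := by
      rw [← Real.rpow_mul (by positivity)]
      norm_num
    have e5 : (Real.exp (-((a ^ 2 + b ^ 2 + c ^ 2) / 2))) ^ (2/3 : ℝ) =
        Real.exp (-((a ^ 2 + b ^ 2 + c ^ 2) / 3)) := by
      rw [← Real.exp_mul]; congr 1; ring
    rw [e3, e4, e5]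
    have h6 := amgm α β κ ha.le hb.le hcc.le
    have h7 : Real.exp (-((a ^ 2 + b ^ 2 + c ^ 2) / 3)) ≤
        Real.exp (-(2/9) * ((a - c) ^ 2 - (a - c) * (b - c) + (b - c) ^ 2)) := by
      apply Real.exp_le_exp.2
      nlinarith [sq_nonneg (a + b + c)]
    have h8 : 0 ≤ (α * β * κ) ^ (2/3 : ℝ) := by positivity
    calc M ^ 2 * (α * β * κ) ^ (2/3 : ℝ) *
          (Real.exp (-((a ^ 2 + b ^ 2 + c ^ 2) / 3)) / (2 * Real.pi))
        = M ^ 2 / (6 * Real.pi) * ((3 * (α * β * κ) ^ (2/3 : ℝ)) *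
            Real.exp (-((a ^ 2 + b ^ 2 + c ^ 2) / 3))) := by
          field_simp; ring
      _ ≤ _ := by gcongr
  calc ∫⁻ p : ℝ × ℝ, ENNReal.ofReal ((g p.1 * g p.2 * g (s - p.1 - p.2)) ^ (2/3 : ℝ))
      ≤ ∫⁻ p : ℝ × ℝ, ENNReal.ofReal (M ^ 2 / (6 * Real.pi)) *
      (ENNReal.ofReal |(FF' (T' p.1) (T' p.2) (T' (s - p.1 - p.2))).det| * E (FF T s p)) :=
        lintegral_mono hpt
    _ = ENNReal.ofReal (M ^ 2 / (6 * Real.pi)) * ∫⁻ p : ℝ × ℝ,
      (ENNReal.ofReal |(FF' (T' p.1) (T' p.2) (T' (s - p.1 - p.2))).det| * E (FF T s p)) :=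
        lintegral_const_mul' _ _ ENNReal.ofReal_ne_top
    _ ≤ ENNReal.ofReal (M ^ 2 / (6 * Real.pi)) * ENNReal.ofReal (3 * Real.sqrt 3 * Real.pi) := by
        gcongr
    _ = ENNReal.ofReal (Real.sqrt 3 / 2 * M ^ 2) := by
        rw [← ENNReal.ofReal_mul (by positivity)]
        congr 1
        have hpi : 0 < Real.pi := Real.pi_pos
        field_simp
        ring

end Pool.Agent.Helper164.EG
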